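import Pool.Agent.Work.MP_4b5e6c_gt.Assemble

namespace Pool.Agent.Results.MP_4b5e6c_gt.TorsionFree
open Pool.Agent.Work.MP_4b5e6c_gt.Stmt

/-- The Lipschitz homotopy group of the Heisenberg group `H (n + 1)` in dimension `n + 1` has no
torsion: a based Lipschitz map of the sphere of dimension `n + 1` with a null-homotopic positive
power is null-homotopic. -/
theorem result (n : ℕ) (p : H (n + 1)) (f : Sph n → H (n + 1)) (hf : IsLoop p f)
    (m : ℕ) (hm : 1 ≤ m) (h : Homotopic p (pow p f m) fun _ => p) : Homotopic p f fun _ => p :=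
  open Pool.Agent.Work.MP_4b5e6c_gt in final_of_tf n (Heis.tf n) p f hf m hm h

end Pool.Agent.Results.MP_4b5e6c_gt.TorsionFree
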